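import Mathlib

/-!
An affine (modular) machine on finitely many integer registers with undecidable halting set,
obtained from Mathlib's stack machines computing partial recursive functions.
-/

namespace Pool.Agent.Shared.GroupUndec

open Turing Turing.PartrecToTM2 Function

/-- One step of an affine machine: look at the residue mod 5 of one register, change the state
and replace the register `d + 5 u` by `c + e u`. -/
def affStep {Q ι : Type} [DecidableEq ι] (kk : Q → ι) (nq : Q → ℤ → Q) (c e : Q → ℤ → ℤ)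
    (x : Q × (ι → ℤ)) : Q × (ι → ℤ) :=
  (nq x.1 (x.2 (kk x.1) % 5), update x.2 (kk x.1)
    (c x.1 (x.2 (kk x.1) % 5) + e x.1 (x.2 (kk x.1) % 5) * (x.2 (kk x.1) / 5)))

def dig : Γ' → ℕ
  | .consₗ => 1
  | .cons => 2
  | .bit0 => 3
  | .bit1 => 4

def undig (d : ℤ) : Option Γ' :=
  if d = 1 then some .consₗ else if d = 2 then some .cons else if d = 3 then some .bit0
  else if d = 4 then some .bit1 else none

def encL : List Γ' → ℕ
  | [] => 0
  | a :: l => dig a + 5 * encL l

lemma undig_encL (l : List Γ') : undig ((encL l : ℤ) % 5) = l.head? := by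
  cases l with
  | nil => simp [encL, undig]
  | cons a l =>
    have : ((encL (a :: l) : ℕ) : ℤ) % 5 = dig a := by
      simp only [encL]; push_cast
      cases a <;> simp only [dig] <;> omega
    rw [this]
    cases a <;> simp [undig, dig]

lemma encL_div (l : List Γ') : (encL l : ℤ) / 5 = encL l.tail := by
  cases l with
  | nil => simp [encL]
  | cons a l =>
    simp only [encL, List.tail_cons]; push_cast
    cases a <;> simp only [dig] <;> omega

abbrev St := TM2.Stmt (fun _ : K' => Γ') Λ' (Option Γ')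
abbrev Qall := Option St × Option Γ'
abbrev Cf := TM2.Cfg (fun _ : K' => Γ') Λ' (Option Γ')

def trM : Λ' → St := tr
def initM (c : ToPartrec.Code) (v : List ℕ) : Cf := init c v
def haltM (v : List ℕ) : Cf := halt v

lemma trM_eval (c : ToPartrec.Code) (v : List ℕ) :
    StateTransition.eval (TM2.step trM) (initM c v) = haltM <$> ToPartrec.Code.eval c v :=
  tr_eval c v

def kkA : Qall → K'
  | (some (.push k _ _), _) => k
  | (some (.peek k _ _), _) => k
  | (some (.pop k _ _), _) => k
  | _ => .main

def nqA : Qall → ℤ → Qall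
  | (some (.push _ _ q), v), _ => (some q, v)
  | (some (.peek _ f q), v), d => (some q, f v (undig d))
  | (some (.pop _ f q), v), d => (some q, f v (undig d))
  | (some (.load f q), v), _ => (some q, f v)
  | (some (.branch f q₁ q₂), v), _ => (some (cond (f v) q₁ q₂), v)
  | (some (.goto f), v), _ => (some (trM (f v)), v)
  | (some .halt, v), _ => (none, v)
  | (none, v), _ => (none, v)

def cA : Qall → ℤ → ℤ
  | (some (.push _ f _), v), d => dig (f v) + 5 * d
  | (some (.pop _ _ _), _), _ => 0
  | _, d => d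

def eA : Qall → ℤ → ℤ
  | (some (.push _ _ _), _), _ => 25
  | (some (.pop _ _ _), _), _ => 1
  | _, _ => 5

lemma eA_ne (q : Qall) (d : ℤ) : eA q d ≠ 0 := by
  rcases q with ⟨_ | q, v⟩
  · simp [eA]
  · cases q <;> simp [eA]

abbrev G : Qall × (K' → ℤ) → Qall × (K' → ℤ) := affStep kkA nqA cA eA

def encS (S : K' → List Γ') : K' → ℤ := fun k => encL (S k)

def encC (c : Cf) : Qall × (K' → ℤ) :=
  ((c.l.map trM, c.var), encS c.stk)

lemma encS_update (S : K' → List Γ') (k : K') (l : List Γ') :
    encS (update S k l) = update (encS S) k (encL l : ℤ) := by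
  funext j
  by_cases h : j = k
  · subst h; simp [encS]
  · simp [encS, update_of_ne h]

lemma upd_self (s : K' → ℤ) (k : K') : update s k (s k % 5 + 5 * (s k / 5)) = s := by
  rw [Int.emod_add_mul_ediv, update_eq_self]

lemma G_none (v : Option Γ') (s : K' → ℤ) : G ((none, v), s) = ((none, v), s) := by
  simp only [G, affStep, kkA, nqA, cA, eA, upd_self]

lemma stepAux_sim (q : St) : ∀ (v : Option Γ') (S : K' → List Γ'),
    ∃ j, G^[j + 1] ((some q, v), encS S) = encC (TM2.stepAux q v S) := by
  induction q with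
  | push k f q ih =>
    intro v S
    obtain ⟨j, hj⟩ := ih v (update S k (f v :: S k))
    refine ⟨j + 1, ?_⟩
    rw [iterate_succ_apply, TM2.stepAux, ← hj]
    congr 1
    simp only [G, affStep, kkA, nqA, cA, eA, encS_update, encL, Prod.mk.injEq, true_and]
    congr 1
    have := Int.emod_add_mul_ediv (encS S k) 5
    simp only [encS] at this ⊢
    push_cast; omega
  | peek k f q ih =>
    intro v S
    obtain ⟨j, hj⟩ := ih (f v (S k).head?) S
    refine ⟨j + 1, ?_⟩
    rw [iterate_succ_apply, TM2.stepAux, ← hj]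
    congr 1
    simp only [G, affStep, kkA, nqA, cA, eA, upd_self]
    simp only [encS, undig_encL]
  | pop k f q ih =>
    intro v S
    obtain ⟨j, hj⟩ := ih (f v (S k).head?) (update S k (S k).tail)
    refine ⟨j + 1, ?_⟩
    rw [iterate_succ_apply, TM2.stepAux, ← hj]
    congr 1
    simp only [G, affStep, kkA, nqA, cA, eA, encS_update]
    simp only [encS, undig_encL, encL_div, zero_add, one_mul]
  | load f q ih =>
    intro v S
    obtain ⟨j, hj⟩ := ih (f v) S
    refine ⟨j + 1, ?_⟩
    rw [iterate_succ_apply, TM2.stepAux, ← hj]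
    congr 1
    simp only [G, affStep, kkA, nqA, cA, eA, upd_self]
  | branch f q₁ q₂ ih₁ ih₂ =>
    intro v S
    have h : G ((some (.branch f q₁ q₂), v), encS S) = ((some (cond (f v) q₁ q₂), v), encS S) := by
      simp only [G, affStep, kkA, nqA, cA, eA, upd_self]
    cases hf : f v
    · obtain ⟨j, hj⟩ := ih₂ v S
      refine ⟨j + 1, ?_⟩
      rw [iterate_succ_apply, TM2.stepAux, h, hf]
      exact hj
    · obtain ⟨j, hj⟩ := ih₁ v S
      refine ⟨j + 1, ?_⟩
      rw [iterate_succ_apply, TM2.stepAux, h, hf]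
      exact hj
  | goto f =>
    intro v S
    refine ⟨0, ?_⟩
    simp only [zero_add, iterate_one, G, affStep, kkA, nqA, cA, eA, upd_self, TM2.stepAux, encC,
      Option.map_some]
  | halt =>
    intro v S
    refine ⟨0, ?_⟩
    simp only [zero_add, iterate_one, G, affStep, kkA, nqA, cA, eA, upd_self, TM2.stepAux, encC,
      Option.map_none]

lemma reaches_sim {c c' : Cf}
    (h : StateTransition.Reaches (TM2.step trM) c c') : ∃ j, G^[j] (encC c) = encC c' := by
  induction h with
  | refl => exact ⟨0, rfl⟩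
  | @tail b c' _ h2 ih =>
    obtain ⟨j, hj⟩ := ih
    obtain ⟨_ | l, v, S⟩ := b
    · simp [TM2.step] at h2
    · simp only [TM2.step, Option.mem_def, Option.some.injEq] at h2
      subst h2
      obtain ⟨i, hi⟩ := stepAux_sim (trM l) v S
      refine ⟨i + 1 + j, ?_⟩
      rw [iterate_add_apply, hj]
      exact hi

lemma G_iter_none (j : ℕ) (x : Qall × (K' → ℤ)) (h : x.1.1 = none) : G^[j] x = x := by
  apply iterate_fixed
  obtain ⟨⟨q, v⟩, s⟩ := x
  simp only at h
  subst h
  exact G_none v s

lemma dom_of_none (j : ℕ) : ∀ c : Cf,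
    (G^[j] (encC c)).1.1 = none → (StateTransition.eval (TM2.step trM) c).Dom := by
  have base : ∀ (v : Option Γ') (S : K' → List Γ'),
      (StateTransition.eval (TM2.step trM) ⟨none, v, S⟩).Dom := by
    intro v S
    apply Part.dom_iff_mem.mpr
    exact ⟨⟨none, v, S⟩, StateTransition.mem_eval.mpr ⟨Relation.ReflTransGen.refl, rfl⟩⟩
  induction j with
  | zero =>
    rintro ⟨_ | l, v, S⟩ h
    · exact base v S
    · simp [encC] at h
  | succ j ih =>
    rintro ⟨_ | l, v, S⟩ h
    · exact base v S
    · obtain ⟨i, hi⟩ := stepAux_sim (trM l) v S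
      have h1 : G^[j] (encC (TM2.stepAux (trM l) v S)) = G^[j + 1] (encC ⟨some l, v, S⟩) := by
        rw [← hi, ← iterate_add_apply, show j + (i + 1) = i + (j + 1) by ring, iterate_add_apply]
        exact G_iter_none i _ h
      have h2 := ih (TM2.stepAux (trM l) v S) (by rw [h1]; exact h)
      have h3 : StateTransition.Reaches (TM2.step trM) ⟨some l, v, S⟩ (TM2.stepAux (trM l) v S) :=
        Relation.ReflTransGen.single rfl
      rwa [StateTransition.reaches_eval h3]

/-- The input register as a function of the input number. -/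
def inp (n : ℕ) : ℕ := encL (trList [n])

lemma inp_zero : inp 0 = 2 := by simp [inp, trList, encL, dig]

lemma inp_pos (n : ℕ) (hn : n ≠ 0) : inp n = (3 + n % 2) + 5 * inp (n / 2) := by
  have key : ∀ m : PosNum, encL (trPosNum m ++ [Γ'.cons]) =
      (3 + (m : ℕ) % 2) + 5 * encL (trNat ((m : ℕ) / 2) ++ [Γ'.cons]) := by
    intro m
    cases m with
    | one => simp [trPosNum, encL, dig]
    | bit1 m =>
      have h1 : ((m.bit1 : PosNum) : ℕ) = 2 * m + 1 := by simp [PosNum.cast_bit1]; ring
      have h2 : trNat (m : ℕ) = trPosNum m := by simp [trNat, trNum]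
      rw [h1, show (2 * (m : ℕ) + 1) / 2 = m by omega, show (2 * (m : ℕ) + 1) % 2 = 1 by omega, h2]
      simp [trPosNum, encL, dig]
    | bit0 m =>
      have h1 : ((m.bit0 : PosNum) : ℕ) = 2 * m := by simp [PosNum.cast_bit0]; ring
      have h2 : trNat (m : ℕ) = trPosNum m := by simp [trNat, trNum]
      rw [h1, show (2 * (m : ℕ)) / 2 = m by omega, show (2 * (m : ℕ)) % 2 = 0 by omega, h2]
      simp [trPosNum, encL, dig]
  obtain ⟨m, rfl⟩ : ∃ m : PosNum, (m : ℕ) = n := by
    cases h : (n : Num) with
    | zero =>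
      have := congrArg (fun x : Num => (x : ℕ)) h
      simp at this
      exact absurd this hn
    | pos m =>
      have := congrArg (fun x : Num => (x : ℕ)) h
      simp at this
      exact ⟨m, this.symm⟩
  have h2 : trNat (m : ℕ) = trPosNum m := by simp [trNat, trNum]
  simp only [inp, trList]
  rw [h2]
  exact key m

def inpStep (x : ℕ × ℕ × ℕ) : ℕ × ℕ × ℕ :=
  if x.1 = 0 then x else (x.1 / 2, x.2.1 + (3 + x.1 % 2) * x.2.2, 5 * x.2.2)

lemma inpStep_iter (j : ℕ) : ∀ x : ℕ × ℕ × ℕ, x.1 ≤ j →
    (inpStep^[j] x).2.1 + 2 * (inpStep^[j] x).2.2 = x.2.1 + inp x.1 * x.2.2 := by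
  induction j with
  | zero =>
    rintro ⟨a, b, c⟩ h
    have : a = 0 := by simpa using h
    subst this
    simp [inp_zero]
  | succ j ih =>
    rintro ⟨a, b, c⟩ h
    rw [iterate_succ_apply]
    by_cases ha : a = 0
    · subst ha
      have : inpStep (0, b, c) = (0, b, c) := by simp [inpStep]
      rw [this]; exact ih _ (Nat.zero_le _)
    · have : inpStep (a, b, c) = (a / 2, b + (3 + a % 2) * c, 5 * c) := by simp [inpStep, ha]
      rw [this, ih _ (by simp only at h ⊢; omega)]
      simp only
      rw [inp_pos a ha]; ring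

lemma primrec_inp : Primrec inp := by
  have h1 : Primrec inpStep := by
    unfold inpStep
    refine Primrec.ite (Primrec.eq.comp Primrec.fst (Primrec.const 0)) Primrec.id ?_
    refine Primrec.pair (Primrec.nat_div.comp Primrec.fst (Primrec.const 2)) (Primrec.pair ?_ ?_)
    · exact Primrec.nat_add.comp (Primrec.fst.comp Primrec.snd) (Primrec.nat_mul.comp
        (Primrec.nat_add.comp (Primrec.const 3) (Primrec.nat_mod.comp Primrec.fst (Primrec.const 2)))
        (Primrec.snd.comp Primrec.snd))
    · exact Primrec.nat_mul.comp (Primrec.const 5) (Primrec.snd.comp Primrec.snd)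
  have h2 : Primrec fun n : ℕ => inpStep^[n] (n, 0, 1) :=
    Primrec.nat_iterate Primrec.id (Primrec.pair Primrec.id (Primrec.const (0, 1)))
      (h1.comp Primrec.snd).to₂
  have h3 : Primrec fun n : ℕ => (inpStep^[n] (n, 0, 1)).2.1 + 2 * (inpStep^[n] (n, 0, 1)).2.2 :=
    Primrec.nat_add.comp (Primrec.fst.comp (Primrec.snd.comp h2))
      (Primrec.nat_mul.comp (Primrec.const 2) (Primrec.snd.comp (Primrec.snd.comp h2)))
  refine h3.of_eq fun n => ?_
  rw [inpStep_iter n _ le_rfl]; simp

lemma encS_elim (l : List Γ') : encS (K'.elim l [] [] []) = Pi.single K'.main (encL l : ℤ) := by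
  funext k
  cases k <;> simp [encS, K'.elim, encL]

/-- The halting predicate used throughout. -/
def Halts (n : ℕ) : Prop := (Nat.Partrec.Code.eval (Denumerable.ofNat Nat.Partrec.Code n) 0).Dom

lemma not_computable_halts : ¬ ComputablePred Halts := by
  intro h
  apply ComputablePred.halting_problem 0
  obtain ⟨_, h⟩ := h
  classical
  refine ⟨inferInstance, ?_⟩
  refine (h.comp (Computable.encode (α := Nat.Partrec.Code))).of_eq fun c => ?_
  simp [Halts]

theorem exists_affine : ∃ (Q : Type) (_ : Fintype Q) (kk : Q → K') (nq : Q → ℤ → Q)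
    (c e : Q → ℤ → ℤ) (q0 qh : Q), (∀ q d, e q d ≠ 0) ∧
    affStep kk nq c e (qh, Pi.single K'.main 2) = (qh, Pi.single K'.main 2) ∧
    ∀ n, Halts n ↔ ∃ j, (affStep kk nq c e)^[j] (q0, Pi.single K'.main (inp n : ℤ)) =
      (qh, Pi.single K'.main 2) := by
  classical
  let f : ℕ →. ℕ := fun n =>
    (Nat.Partrec.Code.eval (Denumerable.ofNat Nat.Partrec.Code n) 0).map fun _ => 0
  have hf : Partrec f :=
    (Nat.Partrec.Code.eval_part.comp (Computable.ofNat _) (Computable.const 0)).map
      (Computable.const 0).to₂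
  obtain ⟨cd, hcd⟩ := ToPartrec.Code.exists_code (Nat.Partrec'.part_iff₁.mpr hf)
  have hcd' : ∀ n, cd.eval [n] = pure <$> f n := fun n => hcd (n ::ᵥ List.Vector.nil)
  let _ : Inhabited Λ' := ⟨trNormal cd Cont'.halt⟩
  have ss : TM2.Supports trM (codeSupp cd Cont'.halt) := tr_supports cd Cont'.halt
  let S := TM2.stmts trM (codeSupp cd Cont'.halt)
  have hlab : ∀ l ∈ codeSupp cd Cont'.halt, some (trM l) ∈ S := by
    intro l hl
    simp only [S, TM2.stmts, Finset.some_mem_insertNone, Finset.mem_biUnion]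
    exact ⟨l, hl, TM2.stmts₁_self⟩
  have hnone : none ∈ S := Finset.none_mem_insertNone
  have hcl : ∀ q : Qall, q.1 ∈ S → ∀ d, (nqA q d).1 ∈ S := by
    rintro ⟨_ | q, v⟩ hq d
    · exact hq
    · have hs := TM2.stmts_supportsStmt ss hq
      cases q with
      | goto g => exact hlab _ (hs v)
      | halt => exact hnone
      | branch g q₁ q₂ =>
        refine TM2.stmts_trans ?_ hq
        cases g v <;> simp [TM2.stmts₁, TM2.stmts₁_self]
      | _ => exact TM2.stmts_trans (by simp [TM2.stmts₁, TM2.stmts₁_self]) hq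
  let Q := {q : Qall // q.1 ∈ S}
  have hfin : Finite Q := by
    refine Finite.of_injective (fun q : Q => ((⟨q.1.1, q.2⟩ : S), q.1.2)) ?_
    rintro ⟨⟨a, b⟩, h⟩ ⟨⟨a', b'⟩, h'⟩ e
    simp only [Prod.mk.injEq, Subtype.mk.injEq] at e
    simp [e.1, e.2]
  let nq : Q → ℤ → Q := fun q d => ⟨nqA q.1 d, hcl q.1 q.2 d⟩
  let F := affStep (fun q : Q => kkA q.1) nq (fun q => cA q.1) (fun q => eA q.1)
  let val : Q × (K' → ℤ) → Qall × (K' → ℤ) := fun x => (x.1.1, x.2)
  have hval : Semiconj val F G := fun x => rfl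
  have hinj : Injective val := by
    rintro ⟨a, b⟩ ⟨a', b'⟩ e
    simp only [val, Prod.mk.injEq] at e
    exact Prod.ext (Subtype.ext e.1) e.2
  let q0 : Q := ⟨(some (trM (trNormal cd Cont'.halt)), none), hlab _ ss.1⟩
  let qh : Q := ⟨(none, none), hnone⟩
  refine ⟨Q, Fintype.ofFinite Q, fun q => kkA q.1, nq, fun q => cA q.1, fun q => eA q.1, q0, qh,
    fun q d => eA_ne _ _, hinj (G_none _ _), fun n => ?_⟩
  have e0 : val (q0, Pi.single K'.main (inp n : ℤ)) = encC (initM cd [n]) := by
    simp only [val, q0, encC, initM, init, Option.map_some, encS_elim, inp]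
  have e1 : val (qh, Pi.single K'.main 2) = encC (haltM [0]) := by
    simp [val, qh, encC, haltM, halt, encS_elim, trList, encL, dig]
  constructor
  · intro h
    have h1 : haltM [0] ∈ StateTransition.eval (TM2.step trM) (initM cd [n]) := by
      rw [trM_eval, hcd']
      simp only [Part.map_eq_map, Part.mem_map_iff, f]
      exact ⟨[0], ⟨0, ⟨_, Part.get_mem h, rfl⟩, rfl⟩, rfl⟩
    obtain ⟨j, hj⟩ := reaches_sim (StateTransition.mem_eval.mp h1).1
    refine ⟨j, hinj ?_⟩
    rw [(hval.iterate_right j).eq, e0, e1, hj]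
  · rintro ⟨j, hj⟩
    have h1 := congrArg val hj
    rw [(hval.iterate_right j).eq, e0] at h1
    have h2 := dom_of_none j (initM cd [n]) (by rw [h1])
    have h3 : (StateTransition.eval (TM2.step trM) (initM cd [n])).Dom := h2
    rw [trM_eval, hcd'] at h3
    exact h3

end Pool.Agent.Shared.GroupUndec
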