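import Mathlib
import Pool.Agent.Shared.GroupUndec.Affine

/-!
Novikov-Boone: a finite presentation and a primitive recursive sequence of words `w n` such that
`w n = 1` in the presented group iff the `n`-th program halts. (Aanderaa-Cohen construction, with a
permutation model in place of Britton's lemma.)
-/

namespace Pool.Agent.Shared.GroupUndec

open Function

abbrev Word := List (ℕ × Bool)

/-- The value of a word under an assignment of the generators. -/
def ev {G : Type*} [Group G] (a : ℕ → G) (w : Word) : G :=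
  (w.map fun p => cond p.2 (a p.1) (a p.1)⁻¹).prod

section ev
variable {G : Type*} [Group G] (a : ℕ → G)

@[simp] lemma ev_nil : ev a [] = 1 := rfl
@[simp] lemma ev_cons_true (x : ℕ) (w : Word) : ev a ((x, true) :: w) = a x * ev a w := by
  simp [ev]
@[simp] lemma ev_cons_false (x : ℕ) (w : Word) : ev a ((x, false) :: w) = (a x)⁻¹ * ev a w := by
  simp [ev]
lemma ev_cons (p : ℕ × Bool) (w : Word) :
    ev a (p :: w) = cond p.2 (a p.1) (a p.1)⁻¹ * ev a w := by simp [ev]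
@[simp] lemma ev_append (u w : Word) : ev a (u ++ w) = ev a u * ev a w := by simp [ev]
@[simp] lemma ev_replicate_true (n x : ℕ) : ev a (List.replicate n (x, true)) = a x ^ n := by
  simp [ev]
@[simp] lemma ev_replicate_false (n x : ℕ) :
    ev a (List.replicate n (x, false)) = (a x ^ n)⁻¹ := by
  simp [ev]

lemma ev_congr {a b : ℕ → G} {N : ℕ} {w : Word} (hw : ∀ p ∈ w, p.1 < N)
    (h : ∀ x < N, a x = b x) : ev a w = ev b w := by
  unfold ev
  congr 1
  apply List.map_congr_left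
  intro p hp
  rw [h _ (hw p hp)]

lemma map_ev {H : Type*} [Group H] (f : G →* H) (w : Word) : f (ev a w) = ev (fun x => f (a x)) w := by
  induction w with
  | nil => simp
  | cons p w ih => rcases p with ⟨x, _ | _⟩ <;> simp [ih]

end ev

/-! ### Extending partial isomorphisms that respect a subgroup -/

lemma normal_form {K H : Type} [Group K] [Group H] [Countable K] (T : Subgroup K) (ψ : H →* K)
    (hψ : Injective ψ) : ∃ Φ : H × (ℕ ⊕ ℕ) ≃ K × ℕ × Bool,
      (∀ h h' y, Φ (h * h', y) = (ψ h * (Φ (h', y)).1, (Φ (h', y)).2)) ∧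
      ∀ h y, ((Φ (h, y)).1 ∈ T ∧ (Φ (h, y)).2.2 = true) ↔ (ψ h ∈ T ∧ y.isLeft = true) := by
  classical
  let Orb := Quotient (QuotientGroup.rightRel ψ.range)
  let mk : K → Orb := Quotient.mk _
  have hmk : ∀ g g', mk g = mk g' ↔ ∃ h, ψ h * g = g' := by
    intro g g'
    rw [Quotient.eq, QuotientGroup.rightRel_apply]
    constructor
    · rintro ⟨h, hh⟩; exact ⟨h, by rw [hh]; group⟩
    · rintro ⟨h, hh⟩; exact ⟨h, by rw [← hh]; group⟩
  have hσ : ∀ ω : Orb, ∃ g, mk g = ω ∧ ((∃ g ∈ T, mk g = ω) → g ∈ T) := by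
    intro ω
    by_cases h : ∃ g ∈ T, mk g = ω
    · obtain ⟨g, h1, h2⟩ := h
      exact ⟨g, h2, fun _ => h1⟩
    · obtain ⟨g, hg⟩ := Quotient.exists_rep ω
      exact ⟨g, hg, fun h' => absurd h' h⟩
  choose σ hσ1 hσ2 using hσ
  let I : Orb × ℕ × Bool → Prop := fun x => (∃ g ∈ T, mk g = x.1) ∧ x.2.2 = true
  have i1 : Infinite {x // I x} :=
    Infinite.of_injective (fun n : ℕ => (⟨(mk 1, n, true), ⟨1, T.one_mem, rfl⟩, rfl⟩ : {x // I x}))
      (fun a b h => by simpa using h)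
  have i2 : Infinite {x // ¬ I x} :=
    Infinite.of_injective (fun n : ℕ => (⟨(mk 1, n, false), fun h => by simpa using h.2⟩ :
      {x // ¬ I x})) (fun a b h => by simpa using h)
  obtain ⟨e1⟩ : Nonempty (ℕ ≃ {x // I x}) := nonempty_equiv_of_countable
  obtain ⟨e2⟩ : Nonempty (ℕ ≃ {x // ¬ I x}) := nonempty_equiv_of_countable
  let ε : ℕ ⊕ ℕ ≃ Orb × ℕ × Bool := (Equiv.sumCongr e1 e2).trans (Equiv.sumCompl I)
  have hε : ∀ y, I (ε y) ↔ y.isLeft = true := by
    rintro (y | y)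
    · simpa [ε] using (e1 y).2
    · simpa [ε] using (e2 y).2
  let Φ : H × (ℕ ⊕ ℕ) → K × ℕ × Bool := fun p => (ψ p.1 * σ (ε p.2).1, (ε p.2).2)
  have hb : Bijective Φ := by
    constructor
    · rintro ⟨h, y⟩ ⟨h', y'⟩ e
      simp only [Φ, Prod.mk.injEq] at e
      have h1 : (ε y).1 = (ε y').1 := by
        rw [← hσ1 (ε y).1, ← hσ1 (ε y').1, hmk]
        exact ⟨h'⁻¹ * h, by rw [map_mul, mul_assoc, e.1, map_inv]; group⟩
      have h2 : y = y' := ε.injective (Prod.ext h1 e.2)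
      subst h2
      rw [hψ (mul_right_cancel e.1)]
    · rintro ⟨g, n, b⟩
      obtain ⟨h, hh⟩ := (hmk (σ (mk g)) g).mp (hσ1 _)
      exact ⟨(h, ε.symm (mk g, n, b)), by simp [Φ, hh]⟩
  refine ⟨Equiv.ofBijective Φ hb, ?_, ?_⟩
  · intro h h' y
    simp [Φ, mul_assoc]
  · intro h y
    simp only [Equiv.ofBijective_apply, Φ, ← hε]
    constructor
    · rintro ⟨h1, h2⟩
      have h3 : ∃ g ∈ T, mk g = (ε y).1 :=
        ⟨_, h1, ((hmk _ _).mpr ⟨h, rfl⟩).symm.trans (hσ1 _)⟩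
      exact ⟨(T.mul_mem_cancel_right (hσ2 _ h3)).mp h1, h3, h2⟩
    · rintro ⟨h1, h2, h3⟩
      exact ⟨T.mul_mem h1 (hσ2 _ h2), h3⟩

lemma exists_stable {K H : Type} [Group K] [Group H] [Countable K] (T : Subgroup K)
    (ψ χ : H →* K) (hψ : Injective ψ) (hχ : Injective χ) (h : ∀ x, ψ x ∈ T ↔ χ x ∈ T) :
    ∃ r : Equiv.Perm (K × ℕ × Bool),
      (∀ x s, r (ψ x * s.1, s.2) = (χ x * (r s).1, (r s).2)) ∧
      ∀ s, ((r s).1 ∈ T ∧ (r s).2.2 = true) ↔ (s.1 ∈ T ∧ s.2.2 = true) := by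
  obtain ⟨Φ, a1, a2⟩ := normal_form T ψ hψ
  obtain ⟨Ψ, b1, b2⟩ := normal_form T χ hχ
  refine ⟨Φ.symm.trans Ψ, ?_, ?_⟩
  · intro x s
    obtain ⟨⟨h', y⟩, rfl⟩ := Φ.surjective s
    rw [← a1]
    simp [b1]
  · intro s
    obtain ⟨⟨h', y⟩, rfl⟩ := Φ.surjective s
    simp only [Equiv.trans_apply, Equiv.symm_apply_apply]
    rw [a2, b2, h]

/-! ### Lamplighter groups -/

@[ext] structure Lamp (Q ι : Type) where
  f : (Q × (ι → ℤ)) →₀ ℤ
  v : ι → ℤ

namespace Lamp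
variable {Q ι : Type}

noncomputable def shift (v : ι → ℤ) (g : (Q × (ι → ℤ)) →₀ ℤ) : (Q × (ι → ℤ)) →₀ ℤ :=
  Finsupp.mapDomain (fun p => (p.1, p.2 + v)) g

lemma shift_add (v : ι → ℤ) (g h : (Q × (ι → ℤ)) →₀ ℤ) :
    shift v (g + h) = shift v g + shift v h := Finsupp.mapDomain_add

lemma shift_shift (v w : ι → ℤ) (g : (Q × (ι → ℤ)) →₀ ℤ) :
    shift v (shift w g) = shift (v + w) g := by
  unfold shift
  rw [← Finsupp.mapDomain_comp]
  congr 1
  funext p
  simp only [comp, Prod.mk.injEq, true_and]; abel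

@[simp] lemma shift_zero (g : (Q × (ι → ℤ)) →₀ ℤ) : shift 0 g = g := by
  unfold shift
  simp only [add_zero]
  exact Finsupp.mapDomain_id

@[simp] lemma shift_zero' (v : ι → ℤ) : shift v (0 : (Q × (ι → ℤ)) →₀ ℤ) = 0 :=
  Finsupp.mapDomain_zero

noncomputable instance : Mul (Lamp Q ι) := ⟨fun a b => ⟨a.f + shift a.v b.f, a.v + b.v⟩⟩
noncomputable instance : One (Lamp Q ι) := ⟨⟨0, 0⟩⟩
noncomputable instance : Inv (Lamp Q ι) := ⟨fun a => ⟨shift (-a.v) (-a.f), -a.v⟩⟩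

@[simp] lemma mul_f (a b : Lamp Q ι) : (a * b).f = a.f + shift a.v b.f := rfl
@[simp] lemma mul_v (a b : Lamp Q ι) : (a * b).v = a.v + b.v := rfl
@[simp] lemma one_f : (1 : Lamp Q ι).f = 0 := rfl
@[simp] lemma one_v : (1 : Lamp Q ι).v = 0 := rfl
lemma inv_f (a : Lamp Q ι) : a⁻¹.f = shift (-a.v) (-a.f) := rfl
lemma inv_v (a : Lamp Q ι) : a⁻¹.v = -a.v := rfl

noncomputable instance : Group (Lamp Q ι) :=
  Group.ofLeftAxioms
    (fun a b c => by ext1 <;> simp [shift_add, shift_shift, add_assoc])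
    (fun a => by ext1 <;> simp)
    (fun a => by
      ext1
      · rw [mul_f, inv_f, inv_v, ← shift_add]; simp
      · simp [inv_v])

instance [Countable Q] [Finite ι] : Countable (Lamp Q ι) :=
  Function.Injective.countable (f := fun a : Lamp Q ι => (a.f, a.v))
    (fun a b h => by simp only [Prod.mk.injEq] at h; exact Lamp.ext h.1 h.2)

def X (s : ι → ℤ) : Lamp Q ι := ⟨0, s⟩
noncomputable def D (p : Q × (ι → ℤ)) : Lamp Q ι := ⟨Finsupp.single p 1, 0⟩

lemma X_add (s s' : ι → ℤ) : (X (s + s') : Lamp Q ι) = X s * X s' := by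
  ext1 <;> simp [X]

noncomputable def Xh : Multiplicative (ι → ℤ) →* Lamp Q ι :=
  MonoidHom.mk' (fun s => X s.toAdd) (fun _ _ => X_add _ _)

lemma X_zpow (s : ι → ℤ) (n : ℤ) : (X s : Lamp Q ι) ^ n = X (n • s) :=
  (map_zpow (Xh : _ →* Lamp Q ι) (Multiplicative.ofAdd s) n).symm

lemma X_D (s : ι → ℤ) (q : Q) : (X s * D (q, 0) * (X s)⁻¹ : Lamp Q ι) = D (q, s) := by
  rw [mul_inv_eq_iff_eq_mul]
  ext1 <;> simp [X, D, shift, Finsupp.mapDomain_single]

variable [DecidableEq ι]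

def aff (k : ι) (c e : ℤ) (s : ι → ℤ) : ι → ℤ := update s k (c + e * s k)

lemma aff_add (k : ι) (c e : ℤ) (s v : ι → ℤ) : aff k c e (s + v) = aff k c e s + aff k 0 e v := by
  funext i
  by_cases h : i = k
  · subst h; simp [aff]; ring
  · simp [aff, update_of_ne h]

lemma aff_inj (k : ι) (c : ℤ) {e : ℤ} (he : e ≠ 0) : Injective (aff k c e) := by
  intro s s' h
  funext i
  have := congrFun h i
  by_cases hi : i = k
  · subst hi
    simp only [aff, update_self, add_right_inj] at this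
    exact mul_left_cancel₀ he this
  · simpa [aff, update_of_ne hi] using this

noncomputable def emb (q : Q) (k : ι) (c e : ℤ) : Lamp Unit ι →* Lamp Q ι :=
  MonoidHom.mk' (fun a => ⟨Finsupp.mapDomain (fun p => (q, aff k c e p.2)) a.f, aff k 0 e a.v⟩)
    (fun a b => by
      ext1
      · simp only [mul_f, Finsupp.mapDomain_add, shift, ← Finsupp.mapDomain_comp]
        congr 2
        funext p
        simp [aff_add]
      · simpa using aff_add k 0 e a.v b.v)

lemma emb_dom_inj (q : Q) (k : ι) (c : ℤ) {e : ℤ} (he : e ≠ 0) :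
    Injective (fun p : Unit × (ι → ℤ) => (q, aff k c e p.2)) := by
  rintro ⟨_, s⟩ ⟨_, s'⟩ h
  simp only [Prod.mk.injEq, true_and] at h ⊢
  exact aff_inj k c he h

lemma emb_inj (q : Q) (k : ι) (c : ℤ) {e : ℤ} (he : e ≠ 0) : Injective (emb q k c e) := by
  intro a b h
  have h1 := congrArg Lamp.f h
  have h2 := congrArg Lamp.v h
  exact Lamp.ext (Finsupp.mapDomain_injective (emb_dom_inj q k c he) h1) (aff_inj k 0 he h2)

lemma emb_X (q : Q) (k : ι) (c e : ℤ) (s : ι → ℤ) : emb q k c e (X s) = X (aff k 0 e s) := by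
  ext1 <;> simp [emb, X]

lemma emb_D (q : Q) (k : ι) (c e : ℤ) : emb q k c e (D ((), 0)) = D (q, Pi.single k c) := by
  ext1
  · simp only [emb, D, MonoidHom.mk'_apply, Finsupp.mapDomain_single]
    congr 2
    simp [aff, Pi.single]
  · simp [emb, D, aff]

omit [DecidableEq ι] in
/-- Lamp configurations supported in `H0`, with the lamplighter at the origin. -/
def supp (H0 : Set (Q × (ι → ℤ))) : Subgroup (Lamp Q ι) where
  carrier := {a | a.v = 0 ∧ ∀ p, p ∉ H0 → a.f p = 0}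
  mul_mem' := by
    rintro a b ⟨a1, a2⟩ ⟨b1, b2⟩
    refine ⟨by simp [a1, b1], fun p hp => ?_⟩
    simp [a1, a2 p hp, b2 p hp]
  one_mem' := ⟨rfl, fun _ _ => rfl⟩
  inv_mem' := by
    rintro a ⟨a1, a2⟩
    refine ⟨by simp [inv_v, a1], fun p hp => ?_⟩
    simp [inv_f, a1, a2 p hp]

omit [DecidableEq ι] in
lemma D_mem_supp (H0 : Set (Q × (ι → ℤ))) (p : Q × (ι → ℤ)) : D p ∈ supp H0 ↔ p ∈ H0 := by
  classical
  constructor
  · rintro ⟨-, h⟩
    by_contra hp
    simpa [D] using h p hp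
  · intro h
    refine ⟨rfl, fun p' hp' => ?_⟩
    have : p ≠ p' := fun e => hp' (e ▸ h)
    simp [D, this]

lemma emb_mem_supp (H0 : Set (Q × (ι → ℤ))) (q : Q) (k : ι) (c : ℤ) {e : ℤ} (he : e ≠ 0)
    (a : Lamp Unit ι) : emb q k c e a ∈ supp H0 ↔
      a.v = 0 ∧ ∀ s, (q, aff k c e s) ∉ H0 → a.f ((), s) = 0 := by
  have hv : aff k 0 e a.v = 0 ↔ a.v = 0 := by
    have : aff k 0 e (0 : ι → ℤ) = 0 := by simp [aff]
    conv_lhs => rw [← this]
    exact (aff_inj k 0 he).eq_iff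
  have hf : ∀ s, Finsupp.mapDomain (fun p : Unit × (ι → ℤ) => (q, aff k c e p.2)) a.f
      (q, aff k c e s) = a.f ((), s) :=
    fun s => Finsupp.mapDomain_apply (emb_dom_inj q k c he) a.f ((), s)
  constructor
  · rintro ⟨h1, h2⟩
    exact ⟨hv.mp h1, fun s hs => (hf s).symm.trans (h2 _ hs)⟩
  · rintro ⟨h1, h2⟩
    refine ⟨hv.mpr h1, fun p hp => ?_⟩
    by_cases hr : p ∈ Set.range (fun p : Unit × (ι → ℤ) => (q, aff k c e p.2))
    · obtain ⟨⟨_, s⟩, rfl⟩ := hr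
      exact (hf s).trans (h2 s hp)
    · exact Finsupp.mapDomain_of_notMem_range _ _ hr

end Lamp

/-! ### The relations of the group of an affine machine -/

section machine
variable {Q ι : Type} [DecidableEq ι] (kk : Q → ι) (nq : Q → ℤ → Q) (c e : Q → ℤ → ℤ)
  (qh : Q) (k0 : ι) (ch : ℤ)

structure Rel {G : Type*} [Group G] (x : ι → G) (t : Q → G) (r : Q × Fin 5 → G) (κ : G) : Prop where
  comm : ∀ i j, x i * x j = x j * x i
  lin : ∀ (ρ : Q × Fin 5) i, r ρ * x i ^ (if i = kk ρ.1 then (5 : ℤ) else 1) * (r ρ)⁻¹ =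
    x i ^ (if i = kk ρ.1 then e ρ.1 ρ.2 else 1)
  aff : ∀ ρ : Q × Fin 5, r ρ * (x (kk ρ.1) ^ ((ρ.2 : ℕ) : ℤ) * t ρ.1 * (x (kk ρ.1) ^ ((ρ.2 : ℕ) : ℤ))⁻¹)
    * (r ρ)⁻¹ = x (kk ρ.1) ^ c ρ.1 ρ.2 * t (nq ρ.1 ρ.2) * (x (kk ρ.1) ^ c ρ.1 ρ.2)⁻¹
  kr : ∀ ρ, κ * r ρ = r ρ * κ
  kt : κ * (x k0 ^ ch * t qh * (x k0 ^ ch)⁻¹) = x k0 ^ ch * t qh * (x k0 ^ ch)⁻¹ * κ

lemma affStep_aff (q : Q) (d : Fin 5) (s : ι → ℤ) :
    affStep kk nq c e (q, Lamp.aff (kk q) ((d : ℕ) : ℤ) 5 s) =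
      (nq q d, Lamp.aff (kk q) (c q d) (e q d) s) := by
  have h1 : (((d : ℕ) : ℤ) + 5 * s (kk q)) % 5 = (d : ℕ) := by omega
  have h2 : (((d : ℕ) : ℤ) + 5 * s (kk q)) / 5 = s (kk q) := by omega
  simp only [affStep, Lamp.aff, update_self, h1, h2, update_idem]

lemma exists_aff_eq (k : ι) (s : ι → ℤ) :
    ∃ (d : Fin 5) (u : ι → ℤ), s = Lamp.aff k ((d : ℕ) : ℤ) 5 u := by
  refine ⟨⟨(s k % 5).toNat, by omega⟩, update s k (s k / 5), ?_⟩
  simp only [Lamp.aff, update_self, update_idem]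
  rw [show (((s k % 5).toNat : ℕ) : ℤ) + 5 * (s k / 5) = s k by omega, update_eq_self]

lemma rel_sound [Fintype ι] {G : Type*} [Group G] {x : ι → G} {t : Q → G} {r : Q × Fin 5 → G}
    {κ : G} (h : Rel kk nq c e qh k0 ch x t r κ) (q0 : Q) (m : ℤ)
    (hj : ∃ j, (affStep kk nq c e)^[j] (q0, Pi.single k0 m) = (qh, Pi.single k0 ch)) :
    κ * (x k0 ^ m * t q0 * (x k0 ^ m)⁻¹) = x k0 ^ m * t q0 * (x k0 ^ m)⁻¹ * κ := by
  let X : (ι → Multiplicative ℤ) →* G :=
    MonoidHom.noncommPiCoprod (fun i => zpowersHom G (x i))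
      (fun i j _ a b => (Commute.zpow_zpow (h.comm i j) _ _))
  let Y : (ι → ℤ) → G := fun s => X (fun i => Multiplicative.ofAdd (s i))
  have Yadd : ∀ s s', Y (s + s') = Y s * Y s' := fun s s' => by
    simp only [Y, ← map_mul]; rfl
  have Ysingle : ∀ (i : ι) (n : ℤ), Y (Pi.single i n) = x i ^ n := by
    intro i n
    have : (fun j => Multiplicative.ofAdd ((Pi.single i n : ι → ℤ) j)) =
        Pi.mulSingle i (Multiplicative.ofAdd n) := by
      funext j
      by_cases hj : j = i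
      · subst hj; simp
      · simp [hj]
    simp only [Y, this, X, MonoidHom.noncommPiCoprod_mulSingle]
    simp
  have affs : ∀ (k : ι) (e : ℤ) (i : ι) (n : ℤ), Lamp.aff k 0 e (Pi.single i n) =
      Pi.single i ((if i = k then e else 1) * n) := by
    intro k e i n
    funext j
    by_cases hik : i = k
    · subst hik
      by_cases hj : j = i
      · subst hj; simp [Lamp.aff]
      · simp [Lamp.aff, hj]
    · by_cases hj : j = k
      · subst hj; simp [Lamp.aff, hik, Ne.symm hik]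
      · simp [Lamp.aff, hj, hik]
  have Ylin : ∀ (ρ : Q × Fin 5) s, r ρ * Y (Lamp.aff (kk ρ.1) 0 5 s) * (r ρ)⁻¹ =
      Y (Lamp.aff (kk ρ.1) 0 (e ρ.1 ρ.2) s) := by
    intro ρ s
    induction s using Pi.single_induction with
    | zero =>
      have : ∀ e : ℤ, Lamp.aff (kk ρ.1) 0 e (0 : ι → ℤ) = 0 := fun e => by simp [Lamp.aff]
      have h0 : Y 0 = 1 := map_one X
      simp [this, h0]
    | add s s' ih ih' =>
      rw [Lamp.aff_add, Lamp.aff_add, Yadd, Yadd, ← ih, ← ih']; group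
    | single i n =>
      rw [affs, affs, Ysingle, Ysingle, zpow_mul, zpow_mul, ← h.lin, conj_zpow]
  let T : Q × (ι → ℤ) → G := fun p => Y p.2 * t p.1 * (Y p.2)⁻¹
  have aff_split : ∀ k (c e : ℤ) (s : ι → ℤ), Lamp.aff k c e s =
      Lamp.aff k 0 e s + Pi.single k c := by
    intro k c e s
    funext j
    by_cases hj : j = k
    · subst hj; simp [Lamp.aff]; ring
    · simp [Lamp.aff, hj]
  have Tstep : ∀ p, ∃ ρ, r ρ * T p * (r ρ)⁻¹ = T (affStep kk nq c e p) := by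
    rintro ⟨q, s⟩
    obtain ⟨d, u, rfl⟩ := exists_aff_eq (kk q) s
    refine ⟨(q, d), ?_⟩
    rw [affStep_aff]
    simp only [T]
    rw [aff_split _ ((d : ℕ) : ℤ), aff_split _ (c q d), Yadd, Yadd, Ysingle, Ysingle,
      ← Ylin (q, d) u]
    have := h.aff (q, d)
    simp only at this ⊢
    calc _ = (r (q, d) * Y (Lamp.aff (kk q) 0 5 u) * (r (q, d))⁻¹) *
          (r (q, d) * (x (kk q) ^ ((d : ℕ) : ℤ) * t q * (x (kk q) ^ ((d : ℕ) : ℤ))⁻¹) * (r (q, d))⁻¹) *
          (r (q, d) * Y (Lamp.aff (kk q) 0 5 u) * (r (q, d))⁻¹)⁻¹ := by group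
      _ = _ := by rw [this]; group
  have key : ∀ j p, (affStep kk nq c e)^[j] p = (qh, Pi.single k0 ch) → κ * T p = T p * κ := by
    intro j
    induction j with
    | zero =>
      rintro p rfl
      simp only [T, Ysingle]
      exact h.kt
    | succ j ih =>
      intro p hp
      obtain ⟨ρ, hρ⟩ := Tstep p
      have h1 := ih _ hp
      rw [← hρ] at h1
      have h2 := h.kr ρ
      calc κ * T p = (r ρ)⁻¹ * (r ρ * κ) * T p := by group
        _ = (r ρ)⁻¹ * (κ * (r ρ * T p * (r ρ)⁻¹)) * r ρ := by rw [← h2]; group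
        _ = T p * (r ρ)⁻¹ * (κ * r ρ) := by rw [h1]; group
        _ = T p * κ := by rw [h2]; group
  obtain ⟨j, hj⟩ := hj
  have := key j _ hj
  simpa only [T, Ysingle] using this

lemma rel_model [Finite ι] [Finite Q] (he : ∀ q d, e q d ≠ 0)
    (hfix : affStep kk nq c e (qh, Pi.single k0 ch) = (qh, Pi.single k0 ch)) (q0 : Q) (m : ℤ)
    (hj : ¬ ∃ j, (affStep kk nq c e)^[j] (q0, Pi.single k0 m) = (qh, Pi.single k0 ch)) :
    ∃ (G : Type) (_ : Group G) (x : ι → G) (t : Q → G) (r : Q × Fin 5 → G) (κ : G),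
      Rel kk nq c e qh k0 ch x t r κ ∧
      κ * (x k0 ^ m * t q0 * (x k0 ^ m)⁻¹) ≠ x k0 ^ m * t q0 * (x k0 ^ m)⁻¹ * κ := by
  classical
  let H0 : Set (Q × (ι → ℤ)) := {p | ∃ j, (affStep kk nq c e)^[j] p = (qh, Pi.single k0 ch)}
  have hH : ∀ p, p ∈ H0 ↔ affStep kk nq c e p ∈ H0 := by
    intro p
    constructor
    · rintro ⟨j, hj⟩
      exact ⟨j, by rw [← iterate_succ_apply, iterate_succ_apply', hj, hfix]⟩
    · rintro ⟨j, hj⟩
      exact ⟨j + 1, hj⟩
  let T := Lamp.supp H0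
  have hst : ∀ ρ : Q × Fin 5, ∃ r : Equiv.Perm (Lamp Q ι × ℕ × Bool),
      (∀ x s, r (Lamp.emb ρ.1 (kk ρ.1) ((ρ.2 : ℕ) : ℤ) 5 x * s.1, s.2) =
        (Lamp.emb (nq ρ.1 ρ.2) (kk ρ.1) (c ρ.1 ρ.2) (e ρ.1 ρ.2) x * (r s).1, (r s).2)) ∧
      ∀ s, ((r s).1 ∈ T ∧ (r s).2.2 = true) ↔ (s.1 ∈ T ∧ s.2.2 = true) := by
    rintro ⟨q, d⟩
    apply exists_stable T _ _ (Lamp.emb_inj _ _ _ (by norm_num)) (Lamp.emb_inj _ _ _ (he _ _))
    intro a
    rw [Lamp.emb_mem_supp _ _ _ _ (by norm_num), Lamp.emb_mem_supp _ _ _ _ (he _ _)]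
    simp only [hH (q, _), affStep_aff]
  choose r hr1 hr2 using hst
  let S := Lamp Q ι × ℕ × Bool
  let S0 : S → Prop := fun s => s.1 ∈ T ∧ s.2.2 = true
  let L : Equiv.Perm S →* Equiv.Perm (S × Bool) :=
    MonoidHom.mk' (fun P => Equiv.prodCongr P (Equiv.refl _)) (fun _ _ => rfl)
  let A : Lamp Q ι →* Equiv.Perm S :=
    MonoidHom.mk' (fun g => Equiv.prodCongr (Equiv.mulLeft g) (Equiv.refl _))
      (fun a b => by ext s <;> simp [mul_assoc])
  have hA : ∀ g s, A g s = (g * s.1, s.2) := fun _ _ => rfl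
  let κf : S × Bool → S × Bool := fun p => (p.1, if S0 p.1 then !p.2 else p.2)
  have hκ : Involutive κf := by
    rintro ⟨s, b⟩
    by_cases h : S0 s <;> simp [κf, h]
  let κ : Equiv.Perm (S × Bool) := hκ.toPerm
  have hcomm : ∀ P : Equiv.Perm S, (∀ s, S0 (P s) ↔ S0 s) → κ * L P = L P * κ := by
    intro P hP
    refine Equiv.ext fun ⟨s, b⟩ => ?_
    show κf (P s, b) = (P s, (κf (s, b)).2)
    simp only [κf, hP]
  have hconj : ∀ ρ : Q × Fin 5, ∀ a, r ρ * A (Lamp.emb ρ.1 (kk ρ.1) ((ρ.2 : ℕ) : ℤ) 5 a) * (r ρ)⁻¹ =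
      A (Lamp.emb (nq ρ.1 ρ.2) (kk ρ.1) (c ρ.1 ρ.2) (e ρ.1 ρ.2) a) := by
    intro ρ a
    rw [mul_inv_eq_iff_eq_mul]
    exact Equiv.ext fun s => hr1 ρ a s
  have hx : ∀ i (n : ℤ), L (A (Lamp.X (Pi.single i 1))) ^ n = L (A (Lamp.X (Pi.single i n))) := by
    intro i n
    rw [← map_zpow, ← map_zpow, Lamp.X_zpow, ← Pi.single_smul]; simp
  have hD : ∀ i (n : ℤ) q, L (A (Lamp.X (Pi.single i 1))) ^ n * L (A (Lamp.D (q, 0))) *
      (L (A (Lamp.X (Pi.single i 1))) ^ n)⁻¹ = L (A (Lamp.D (q, Pi.single i n))) := by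
    intro i n q
    rw [hx, ← Lamp.X_D (Pi.single i n) q]; simp only [map_mul, map_inv]
  refine ⟨Equiv.Perm (S × Bool), inferInstance, fun i => L (A (Lamp.X (Pi.single i 1))),
    fun q => L (A (Lamp.D (q, 0))), fun ρ => L (r ρ), κ, ⟨?_, ?_, ?_, ?_, ?_⟩, ?_⟩
  · intro i j
    simp only [← map_mul, ← Lamp.X_add, add_comm]
  · intro ρ i
    rw [hx, hx, ← map_inv, ← map_mul, ← map_mul]
    congr 1
    have := hconj ρ (Lamp.X (Pi.single i 1))
    rw [Lamp.emb_X, Lamp.emb_X] at this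
    have affs : ∀ (e : ℤ), Lamp.aff (kk ρ.1) 0 e (Pi.single i 1) =
        Pi.single i (if i = kk ρ.1 then e else 1) := by
      intro e
      funext j
      by_cases hik : i = kk ρ.1
      · subst hik
        by_cases hj : j = kk ρ.1
        · subst hj; simp [Lamp.aff]
        · simp [Lamp.aff, hj]
      · by_cases hj : j = kk ρ.1
        · subst hj; simp [Lamp.aff, hik, Ne.symm hik]
        · simp [Lamp.aff, hj, hik]
    rwa [affs, affs] at this
  · intro ρ
    rw [hD, hD, ← map_inv, ← map_mul, ← map_mul]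
    congr 1
    have := hconj ρ (Lamp.D ((), 0))
    rwa [Lamp.emb_D, Lamp.emb_D] at this
  · intro ρ
    exact hcomm _ (hr2 ρ)
  · rw [hD]
    apply hcomm
    intro s
    have : Lamp.D (qh, Pi.single k0 ch) ∈ T := (Lamp.D_mem_supp _ _).mpr ⟨0, rfl⟩
    simp only [S0, hA, T.mul_mem_cancel_left this]
  · rw [hD]
    intro h
    have h1 := congrArg (fun P : Equiv.Perm (S × Bool) => (P ((1, 0, true), true)).2) h
    have h2 : ¬ S0 (Lamp.D (q0, Pi.single k0 m) * 1, 0, true) := by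
      rintro ⟨h3, -⟩
      rw [mul_one] at h3
      exact hj ((Lamp.D_mem_supp _ _).mp h3)
    have h3 : S0 (1, 0, true) := ⟨T.one_mem, rfl⟩
    change (κf ((Lamp.D (q0, Pi.single k0 m) * 1, 0, true), true)).2 =
      (κf ((1, 0, true), true)).2 at h1
    simp only [κf, h2, h3, if_true, if_false] at h1
    exact absurd h1 (by decide)

end machine

/-- The commutator `[κ, x^m t x^{-m}]` as a word. -/
def nbWord (κ x t m : ℕ) : Word :=
  (κ, true) :: (List.replicate m (x, true) ++ (t, true) :: (List.replicate m (x, false) ++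
    (κ, false) :: (List.replicate m (x, true) ++ (t, false) :: List.replicate m (x, false))))

lemma ev_nbWord {G : Type*} [Group G] (a : ℕ → G) (κ x t m : ℕ) :
    ev a (nbWord κ x t m) = 1 ↔
      a κ * (a x ^ (m : ℤ) * a t * (a x ^ (m : ℤ))⁻¹) =
        a x ^ (m : ℤ) * a t * (a x ^ (m : ℤ))⁻¹ * a κ := by
  conv_rhs => rw [← mul_inv_eq_one]
  simp only [nbWord, ev_cons_true, ev_cons_false, ev_append, ev_replicate_true, ev_replicate_false,
    zpow_natCast]
  apply Eq.congr_left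
  group

lemma primrec_replicate {α : Type} [Primcodable α] (a : α) :
    Primrec fun m : ℕ => List.replicate m a := by
  have : Primrec fun m : ℕ => (List.range m).map fun _ => a :=
    Primrec.list_map Primrec.list_range (Primrec.const a).to₂
  exact this.of_eq fun m => by simp

lemma primrec_nbWord (κ x t : ℕ) : Primrec (nbWord κ x t) := by
  unfold nbWord
  have c : ∀ (p : ℕ × Bool) {h : ℕ → Word}, Primrec h → Primrec fun m => p :: h m :=
    fun p _ hh => Primrec.list_cons.comp (Primrec.const p) hh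
  have r := fun p : ℕ × Bool => primrec_replicate p
  exact c _ (Primrec.list_append.comp (r _) (c _ (Primrec.list_append.comp (r _) (c _
    (Primrec.list_append.comp (r _) (c _ (r _)))))))

open Turing.PartrecToTM2 in
/-- **Novikov-Boone.** -/
theorem novikov_boone : ∃ (N : ℕ) (R : List Word) (w : ℕ → Word), Primrec w ∧
    (∀ r ∈ R, ∀ p ∈ r, p.1 < N) ∧ (∀ n, ∀ p ∈ w n, p.1 < N) ∧
    ∀ n, (Halts n → ∀ (G : Type) [Group G] (a : ℕ → G), (∀ r ∈ R, ev a r = 1) → ev a (w n) = 1) ∧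
      (¬ Halts n → ∃ (G : Type) (_ : Group G) (a : ℕ → G),
        (∀ r ∈ R, ev a r = 1) ∧ ev a (w n) ≠ 1) := by
  classical
  obtain ⟨Q, _, kk, nq, c, e, q0, qh, he, hfix, hH⟩ := exists_affine
  let _ : Fintype K' := ⟨{K'.main, K'.rev, K'.aux, K'.stack}, fun x => by cases x <;> simp⟩
  let Gen := K' ⊕ Q ⊕ (Q × Fin 5) ⊕ Unit
  let N := Fintype.card Gen
  let en : Gen ≃ Fin N := Fintype.equivFin Gen
  let gx : K' → Gen := Sum.inl
  let gt : Q → Gen := fun q => Sum.inr (Sum.inl q)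
  let gr : Q × Fin 5 → Gen := fun ρ => Sum.inr (Sum.inr (Sum.inl ρ))
  let gk : Gen := Sum.inr (Sum.inr (Sum.inr ()))
  let x : K' → FreeGroup Gen := fun i => FreeGroup.of (gx i)
  let t : Q → FreeGroup Gen := fun q => FreeGroup.of (gt q)
  let r : Q × Fin 5 → FreeGroup Gen := fun ρ => FreeGroup.of (gr ρ)
  let κ : FreeGroup Gen := FreeGroup.of gk
  let J := (K' × K') ⊕ ((Q × Fin 5) × K') ⊕ (Q × Fin 5) ⊕ (Q × Fin 5) ⊕ Unit
  let rel : J → FreeGroup Gen × FreeGroup Gen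
    | .inl (i, j) => (x i * x j, x j * x i)
    | .inr (.inl (ρ, i)) => (r ρ * x i ^ (if i = kk ρ.1 then (5 : ℤ) else 1) * (r ρ)⁻¹,
        x i ^ (if i = kk ρ.1 then e ρ.1 ρ.2 else 1))
    | .inr (.inr (.inl ρ)) =>
        (r ρ * (x (kk ρ.1) ^ ((ρ.2 : ℕ) : ℤ) * t ρ.1 * (x (kk ρ.1) ^ ((ρ.2 : ℕ) : ℤ))⁻¹) * (r ρ)⁻¹,
          x (kk ρ.1) ^ c ρ.1 ρ.2 * t (nq ρ.1 ρ.2) * (x (kk ρ.1) ^ c ρ.1 ρ.2)⁻¹)
    | .inr (.inr (.inr (.inl ρ))) => (κ * r ρ, r ρ * κ)
    | .inr (.inr (.inr (.inr _))) => (κ * (x .main ^ (2 : ℤ) * t qh * (x .main ^ (2 : ℤ))⁻¹),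
        x .main ^ (2 : ℤ) * t qh * (x .main ^ (2 : ℤ))⁻¹ * κ)
  let toW : FreeGroup Gen → Word := fun f => f.toWord.map fun p => ((en p.1 : ℕ), p.2)
  have htoW : ∀ (G : Type) [Group G] (a : ℕ → G) f,
      ev a (toW f) = FreeGroup.lift (fun g => a (en g)) f := by
    intro G _ a f
    conv_rhs => rw [← FreeGroup.mk_toWord (x := f), FreeGroup.lift_mk]
    simp only [ev, toW, List.map_map]
    rfl
  let R : List Word := (Finset.univ : Finset J).toList.map fun j => toW ((rel j).1 * (rel j).2⁻¹)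
  have hR : ∀ (G : Type) [Group G] (a : ℕ → G), (∀ r ∈ R, ev a r = 1) ↔
      Rel kk nq c e qh K'.main 2 (fun i => a (en (gx i))) (fun q => a (en (gt q)))
        (fun ρ => a (en (gr ρ))) (a (en gk)) := by
    intro G _ a
    have h1 : (∀ r ∈ R, ev a r = 1) ↔ ∀ j, FreeGroup.lift (fun g => a (en g)) (rel j).1 =
        FreeGroup.lift (fun g => a (en g)) (rel j).2 := by
      simp only [R, List.mem_map, Finset.mem_toList, Finset.mem_univ, true_and,
        forall_exists_index, forall_apply_eq_imp_iff, htoW, map_mul, map_inv, mul_inv_eq_one]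
    rw [h1]
    constructor
    · intro h
      refine ⟨fun i j => ?_, fun ρ i => ?_, fun ρ => ?_, fun ρ => ?_, ?_⟩
      · simpa [rel, x] using h (.inl (i, j))
      · have := h (.inr (.inl (ρ, i)))
        simpa only [rel, x, r, map_mul, map_inv, map_zpow, FreeGroup.lift_apply_of] using this
      · have := h (.inr (.inr (.inl ρ)))
        simpa only [rel, x, r, t, map_mul, map_inv, map_zpow, FreeGroup.lift_apply_of] using this
      · simpa [rel, κ, r] using h (.inr (.inr (.inr (.inl ρ))))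
      · have := h (.inr (.inr (.inr (.inr ()))))
        simpa only [rel, x, κ, t, map_mul, map_inv, map_zpow, FreeGroup.lift_apply_of] using this
    · intro h j
      rcases j with ⟨i, j⟩ | ⟨ρ, i⟩ | ρ | ρ | _
      · simpa [rel, x] using h.comm i j
      · simpa only [rel, x, r, map_mul, map_inv, map_zpow, FreeGroup.lift_apply_of] using h.lin ρ i
      · simpa only [rel, x, r, t, map_mul, map_inv, map_zpow, FreeGroup.lift_apply_of] using h.aff ρ
      · simpa [rel, κ, r] using h.kr ρ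
      · simpa only [rel, x, κ, t, map_mul, map_inv, map_zpow, FreeGroup.lift_apply_of] using h.kt
  refine ⟨N, R, fun n => nbWord (en gk) (en (gx .main)) (en (gt q0)) (inp n),
    (primrec_nbWord _ _ _).comp primrec_inp, ?_, ?_, fun n => ⟨?_, ?_⟩⟩
  · intro r hr p hp
    simp only [R, toW, List.mem_map] at hr
    obtain ⟨j, -, rfl⟩ := hr
    obtain ⟨p', -, rfl⟩ := List.mem_map.mp hp
    exact (en p'.1).2
  · intro n p hp
    simp only [nbWord, List.mem_cons, List.mem_append, List.mem_replicate] at hp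
    rcases hp with rfl | ⟨-, rfl⟩ | rfl | ⟨-, rfl⟩ | rfl | ⟨-, rfl⟩ | rfl | ⟨-, rfl⟩ <;>
      exact (en _).2
  · intro h G _ a ha
    rw [ev_nbWord]
    exact rel_sound kk nq c e qh K'.main 2 ((hR G a).mp ha) q0 _ ((hH n).mp h)
  · intro h
    obtain ⟨G, _, x', t', r', κ', h1, h2⟩ :=
      rel_model kk nq c e qh K'.main 2 he hfix q0 (inp n) (fun h' => h ((hH n).mpr h'))
    let b : Gen → G := Sum.elim x' (Sum.elim t' (Sum.elim r' fun _ => κ'))
    let a : ℕ → G := fun i => if hi : i < N then b (en.symm ⟨i, hi⟩) else 1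
    have ha : ∀ g, a (en g) = b g := fun g => by simp [a]
    refine ⟨G, inferInstance, a, (hR G a).mpr ?_, ?_⟩
    · simp only [ha]; exact h1
    · rw [Ne, ev_nbWord]
      simp only [ha]; exact h2

end Pool.Agent.Shared.GroupUndec
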