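import Mathlib
import Pool.Agent.Shared.GroupUndec.Boone

/-!
Adian-Rabin (Miller's construction): a primitive recursive family of finite presentations whose
triviality is undecidable; the new relators form a balanced presentation of a perfect group.
-/

namespace Pool.Agent.Shared.GroupUndec

open Function Monoid

lemma free_prod (G : Type) [Group G] : ∃ (A : Type) (_ : Group A) (ι : G →* A) (a : A)
    (P Q : Set A), Disjoint P Q ∧ 1 ∉ P ∧ 1 ∉ Q ∧ (∀ g, g ≠ 1 → ∀ y, y ∉ P → ι g * y ∈ P) ∧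
      (∀ n : ℤ, n ≠ 0 → ∀ y, y ∉ Q → a ^ n * y ∈ Q) := by
  classical
  let M : Bool → Type := fun _ => G × Multiplicative ℤ
  let S : Bool → Set (CoprodI M) := fun i => {y | (CoprodI.Word.equiv y).fstIdx = some i}
  have h1 : ∀ i, 1 ∉ S i := by
    intro i h
    have : (CoprodI.Word.equiv (1 : CoprodI M)) = CoprodI.Word.empty :=
      one_smul (CoprodI M) (CoprodI.Word.empty : CoprodI.Word M)
    simp only [S, Set.mem_ofPred_eq, this] at h
    exact absurd h (by simp [CoprodI.Word.fstIdx, CoprodI.Word.empty])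
  have h2 : ∀ i (m : M i), m ≠ 1 → ∀ y, y ∉ S i → CoprodI.of m * y ∈ S i := by
    intro i m hm y hy
    have : (CoprodI.Word.equiv (CoprodI.of m * y)) = CoprodI.of m • CoprodI.Word.equiv y :=
      mul_smul (CoprodI.of m) y (CoprodI.Word.empty : CoprodI.Word M)
    simp only [S, Set.mem_ofPred_eq, this]
    rw [← CoprodI.Word.cons_eq_smul (h1 := hy) (h2 := hm), CoprodI.Word.fstIdx_cons]
  refine ⟨CoprodI M, inferInstance, (CoprodI.of (i := false)).comp (MonoidHom.inl _ _),
    CoprodI.of (i := true) (1, Multiplicative.ofAdd 1), S false, S true, ?_, h1 _, h1 _, ?_, ?_⟩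
  · rw [Set.disjoint_left]
    intro y a b
    simp only [S, Set.mem_ofPred_eq] at a b
    rw [a] at b; simp at b
  · intro g hg y hy
    exact h2 false (g, 1) (fun h => hg (congrArg Prod.fst h)) y hy
  · intro n hn y hy
    rw [← map_zpow]
    apply h2 true _ _ y hy
    intro h
    have := congrArg (fun p : G × Multiplicative ℤ => p.2.toAdd) h
    apply hn
    have e : ((Multiplicative.ofAdd (1 : ℤ)) ^ n).toAdd = 0 := this
    simpa using e

lemma inf_order_of_maps {A : Type} [Group A] (g : A) (Q : Set A) (h1 : 1 ∉ Q)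
    (h : ∀ y, y ∉ Q → g * y ∉ Q ∧ g * y ≠ 1) (n : ℤ) (hn : n ≠ 0) : g ^ n ≠ 1 := by
  have key : ∀ k : ℕ, g ^ k ∉ Q ∧ (k ≠ 0 → g ^ k ≠ 1) := by
    intro k
    induction k with
    | zero => simpa using h1
    | succ k ih => rw [pow_succ']; exact ⟨(h _ ih.1).1, fun _ => (h _ ih.1).2⟩
  intro e
  have := (key n.natAbs).2 (by omega)
  apply this
  rcases Int.natAbs_eq n with h' | h'
  · rw [h', zpow_natCast] at e; exact e
  · rw [h', zpow_neg, zpow_natCast, inv_eq_one] at e; exact e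

lemma free_conj {A : Type} [Group A] (a : A) (P Q : Set A) (hd : Disjoint P Q) (hne : P.Nonempty)
    (ha : ∀ n : ℤ, n ≠ 0 → ∀ y, y ∉ Q → a ^ n * y ∈ Q) (g : ℕ → A)
    (hg : ∀ k, ∀ n : ℤ, n ≠ 0 → ∀ y, y ∉ P → g k ^ n * y ∈ P) :
    Injective (CoprodI.lift (M := fun _ : ℕ => Multiplicative ℤ)
      fun k => zpowersHom A ((a ^ k)⁻¹ * g k * a ^ k)) := by
  have hdis : ∀ i j : ℕ, i ≠ j → ∀ y, a ^ i * y ∈ P → a ^ j * y ∉ P := by
    intro i j hij y h1 h2
    have h3 := ha ((j : ℤ) - i) (by omega) _ (Set.disjoint_left.mp hd h1)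
    rw [zpow_sub, zpow_natCast, zpow_natCast, mul_assoc, inv_mul_cancel_left] at h3
    exact Set.disjoint_left.mp hd h2 h3
  apply CoprodI.lift_injective_of_ping_pong _ (Or.inl (by simp))
    (fun k => {y : A | a ^ k * y ∈ P})
  · intro k
    obtain ⟨p, hp⟩ := hne
    exact ⟨(a ^ k)⁻¹ * p, by simpa using hp⟩
  · intro i j hij
    rw [Function.onFun, Set.disjoint_left]
    exact fun y h1 h2 => hdis i j hij y h1 h2
  · intro i j hij n hn
    rintro _ ⟨y, hy, rfl⟩
    have h1 := hg i n.toAdd (fun h => hn (by simpa using h)) _ (hdis j i hij.symm y hy)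
    have e : ((a ^ i)⁻¹ * g i * a ^ i) ^ n.toAdd = (a ^ i)⁻¹ * g i ^ n.toAdd * a ^ i := by
      have := conj_zpow (i := n.toAdd) (a := (a ^ i)⁻¹) (b := g i)
      simpa using this
    simp only [Set.mem_ofPred_eq, zpowersHom_apply, smul_eq_mul, e]
    simpa [mul_assoc] using h1

/-- Formal inverse of a word. -/
def winv (w : Word) : Word := (w.map fun p => (p.1, !p.2)).reverse

@[simp] lemma ev_winv {G : Type*} [Group G] (a : ℕ → G) (w : Word) :
    ev a (winv w) = (ev a w)⁻¹ := by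
  induction w with
  | nil => simp [winv]
  | cons p w ih =>
    have : winv (p :: w) = winv w ++ [(p.1, !p.2)] := by simp [winv]
    rw [this, ev_append, ih]
    rcases p with ⟨x, _ | _⟩ <;> simp

/-- The word `x^{-k} w x^k`. -/
def cj (x k : ℕ) (w : Word) : Word :=
  List.replicate k (x, false) ++ (w ++ List.replicate k (x, true))

@[simp] lemma ev_cj {G : Type*} [Group G] (a : ℕ → G) (x k : ℕ) (w : Word) :
    ev a (cj x k w) = (a x ^ k)⁻¹ * ev a w * a x ^ k := by
  simp [cj, mul_assoc]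

def sig1 (N : ℕ) : Word :=
  cj N 1 [(N + 1, true)] ++ winv (cj (N + 2) 1 [(N + 1, false), (N + 2, true), (N + 1, true)])
def sig2 (N : ℕ) : Word :=
  cj N 2 [(N + 1, false), (N, true), (N + 1, true)] ++
    winv (cj (N + 2) 2 [(N + 1, false), (N + 2, true), (N + 1, true)])
def sig3 (N : ℕ) (w : Word) : Word :=
  cj N 3 (winv w ++ (N + 1, false) :: (w ++ [(N + 1, true)])) ++ winv (cj (N + 2) 3 [(N + 1, true)])
def sig4 (N i : ℕ) : Word :=
  cj N (i + 4) [(i, true), (N + 1, true)] ++ winv (cj (N + 2) (i + 4) [(N + 1, true)])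

/-- Miller's relators. -/
def miller (N : ℕ) (w : Word) : List Word :=
  sig3 N w :: sig1 N :: sig2 N :: (List.range N).map (sig4 N)

lemma primrec_miller (N : ℕ) : Primrec (miller N) := by
  have hinv : Primrec winv :=
    Primrec.list_reverse.comp (Primrec.list_map Primrec.id
      (Primrec.pair (Primrec.fst.comp Primrec.snd)
        (Primrec.not.comp (Primrec.snd.comp Primrec.snd))).to₂)
  unfold miller sig3
  refine Primrec.list_cons.comp ?_ (Primrec.const _)
  refine Primrec.list_append.comp ?_ (Primrec.const _)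
  unfold cj
  refine Primrec.list_append.comp (Primrec.const _) (Primrec.list_append.comp ?_ (Primrec.const _))
  exact Primrec.list_append.comp hinv (Primrec.list_cons.comp (Primrec.const _)
    (Primrec.list_append.comp Primrec.id (Primrec.const _)))

lemma miller_letters (N : ℕ) (w : Word) (hw : ∀ p ∈ w, p.1 < N) :
    ∀ s ∈ miller N w, ∀ p ∈ s, p.1 < N + 3 := by
  have hi : ∀ u : Word, (∀ p ∈ u, p.1 < N + 3) → ∀ p ∈ winv u, p.1 < N + 3 := by
    intro u hu p hp
    simp only [winv, List.mem_reverse, List.mem_map] at hp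
    obtain ⟨q, hq, rfl⟩ := hp
    exact hu q hq
  have hc : ∀ x k (u : Word), x < N + 3 → (∀ p ∈ u, p.1 < N + 3) → ∀ p ∈ cj x k u, p.1 < N + 3 := by
    intro x k u hx hu p hp
    simp only [cj, List.mem_append, List.mem_replicate] at hp
    rcases hp with ⟨-, rfl⟩ | hp | ⟨-, rfl⟩
    · exact hx
    · exact hu p hp
    · exact hx
  have ha : ∀ u v : Word, (∀ p ∈ u, p.1 < N + 3) → (∀ p ∈ v, p.1 < N + 3) →
      ∀ p ∈ u ++ v, p.1 < N + 3 := by
    intro u v hu hv p hp
    rcases List.mem_append.mp hp with h | h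
    · exact hu p h
    · exact hv p h
  have hw' : ∀ p ∈ w, p.1 < N + 3 := fun p hp => by have := hw p hp; omega
  intro s hs
  simp only [miller, List.mem_cons, List.mem_map, List.mem_range] at hs
  rcases hs with rfl | rfl | rfl | ⟨i, hi', rfl⟩
  · refine ha _ _ (hc _ _ _ (by omega) (ha _ _ (hi _ hw') ?_)) (hi _ (hc _ _ _ (by omega) (by simp)))
    intro p hp
    simp only [List.mem_cons, List.mem_append, List.not_mem_nil, or_false] at hp
    rcases hp with rfl | hp | rfl
    · simp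
    · exact hw' p hp
    · simp
  · exact ha _ _ (hc _ _ _ (by omega) (by simp)) (hi _ (hc _ _ _ (by omega) (by simp)))
  · exact ha _ _ (hc _ _ _ (by omega) (by simp)) (hi _ (hc _ _ _ (by omega) (by simp)))
  · exact ha _ _ (hc _ _ _ (by omega) (by simp; omega)) (hi _ (hc _ _ _ (by omega) (by simp)))

lemma miller_triv {G : Type*} [Group G] (a : ℕ → G) (N : ℕ) (w : Word)
    (h : ∀ s ∈ miller N w, ev a s = 1) (hw : ev a w * a (N + 1) = a (N + 1) * ev a w) :
    ∀ x < N + 3, a x = 1 := by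
  have h3 := h (sig3 N w) (by simp [miller])
  have h1 := h (sig1 N) (by simp [miller])
  have h2 := h (sig2 N) (by simp [miller])
  simp only [sig1, sig2, sig3, ev_append, ev_winv, ev_cj, ev_cons_true, ev_cons_false, ev_nil,
    mul_one, mul_inv_eq_one] at h1 h2 h3
  have hb : a (N + 1) = 1 := by
    rw [hw, inv_mul_cancel_left, inv_mul_cancel, mul_one, inv_mul_cancel, eq_comm,
      mul_eq_one_iff_eq_inv, mul_eq_left] at h3
    exact h3
  have hc : a (N + 2) = 1 := by simpa [hb] using h1.symm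
  have ha : a N = 1 := by
    rw [hb, hc] at h2
    simp only [inv_one, mul_one, one_mul, one_pow] at h2
    rwa [mul_eq_one_iff_eq_inv, mul_eq_left] at h2
  intro x hx
  by_cases hx' : x < N
  · have h4 := h (sig4 N x) (by
      simp only [miller, List.mem_cons, List.mem_map, List.mem_range]
      exact Or.inr (Or.inr (Or.inr ⟨x, hx', rfl⟩)))
    simpa [sig4, ha, hb, hc] using h4
  · have : x = N ∨ x = N + 1 ∨ x = N + 2 := by omega
    rcases this with rfl | rfl | rfl <;> assumption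

lemma miller_surj (N : ℕ) (w : Word) (A : Type) [CommGroup A] (β : ℕ → A) :
    ∃ a : ℕ → A, ∀ s < (miller N w).length, ev a ((miller N w).getD s []) = β s := by
  let a : ℕ → A := fun x => if x < N then β (x + 3) else if x = N then β 2 * ((β 1)⁻¹ * (β 0)⁻¹)
    else if x = N + 1 then (β 0)⁻¹ else (β 1)⁻¹ * (β 0)⁻¹
  have a0 : a N = β 2 * ((β 1)⁻¹ * (β 0)⁻¹) := by simp [a]
  have a1 : a (N + 1) = (β 0)⁻¹ := by simp [a]
  have a2 : a (N + 2) = (β 1)⁻¹ * (β 0)⁻¹ := by simp [a]
  have cc : ∀ u v : A, u⁻¹ * v * u = v := fun u v => by rw [mul_comm u⁻¹, inv_mul_cancel_right]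
  refine ⟨a, ?_⟩
  rintro (_ | _ | _ | s) hs
  · simp only [miller, List.getD_cons_zero, sig3, ev_append, ev_winv, ev_cj, cc, ev_cons_true,
      ev_cons_false, ev_nil, mul_one, a1]
    rw [mul_comm (ev a w)]; simp
  · simp only [miller, List.getD_cons_succ, List.getD_cons_zero, sig1, ev_append, ev_winv, ev_cj, cc,
      ev_cons_true, ev_cons_false, ev_nil, mul_one, ← mul_assoc, a1, a2]
    simp
  · simp only [miller, List.getD_cons_succ, List.getD_cons_zero, sig2, ev_append, ev_winv, ev_cj,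
      ev_cons_true, ev_cons_false, ev_nil, mul_one, cc]
    simp only [← mul_assoc, cc]
    rw [a0, a2, mul_inv_cancel_right]
  · have hs' : s < N := by simpa [miller] using hs
    have : (miller N w).getD (s + 1 + 1 + 1) [] = sig4 N s := by
      simp [miller, List.getD_eq_getElem?_getD, hs']
    rw [this]
    simp only [sig4, ev_append, ev_winv, ev_cj, cc, ev_cons_true, ev_nil, mul_one]
    simp [a, hs']

lemma miller_nontriv {G : Type} [Group G] (a0 : ℕ → G) (N : ℕ) (w : Word)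
    (hw : ∀ p ∈ w, p.1 < N) (h : ev a0 w ≠ 1) :
    ∃ (H : Type) (_ : Group H) (f : G →* H) (a : ℕ → H), (∀ x < N, a x = f (a0 x)) ∧
      (∀ s ∈ miller N w, ev a s = 1) ∧ a (N + 1) ≠ 1 := by
  obtain ⟨G1, _, ι1, b1, P1, Q1, d1, p1, q1, hP1, hQ1⟩ := free_prod G
  obtain ⟨A, _, ι, a, P, Q, d, p, q, hP, hQ⟩ := free_prod G1
  have nP1 : ∀ y, y ∈ Q1 → y ∉ P1 := fun y h1 h2 => Set.disjoint_left.mp d1 h2 h1
  have nQ1 : ∀ y, y ∈ P1 → y ∉ Q1 := fun y h1 h2 => Set.disjoint_left.mp d1 h1 h2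
  have nP : ∀ y, y ∈ Q → y ∉ P := fun y h1 h2 => Set.disjoint_left.mp d h2 h1
  have nQ : ∀ y, y ∈ P → y ∉ Q := fun y h1 h2 => Set.disjoint_left.mp d h1 h2
  have hb1 : ∀ n : ℤ, n ≠ 0 → b1 ^ n ≠ 1 := by
    intro n hn e
    have := hQ1 n hn 1 q1
    rw [e, one_mul] at this
    exact q1 this
  have hbQ : ∀ y, y ∉ Q1 → b1 * y ∈ Q1 := fun y hy => by simpa using hQ1 1 one_ne_zero y hy
  have hbQ' : ∀ y, y ∉ Q1 → b1⁻¹ * y ∈ Q1 := fun y hy => by simpa using hQ1 (-1) (by simp) y hy
  have good : ∀ g : G1, (∀ y, y ∉ Q1 → g * y ∈ P1) → ∀ n : ℤ, n ≠ 0 → g ^ n ≠ 1 := by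
    intro g hg
    exact inf_order_of_maps g Q1 q1 fun y hy => ⟨nQ1 _ (hg y hy), fun e => p1 (e ▸ hg y hy)⟩
  set W := ev a0 w with hW
  have hcomm : ∀ n : ℤ, n ≠ 0 → ((ι1 W)⁻¹ * (b1⁻¹ * (ι1 W * b1))) ^ n ≠ 1 := by
    apply good
    intro y hy
    have := hP1 W⁻¹ (inv_ne_one.mpr h) _ (nP1 _ (hbQ' _ (nQ1 _ (hP1 W h _ (nP1 _ (hbQ y hy))))))
    simpa [mul_assoc] using this
  have hxb : ∀ x : G, ∀ n : ℤ, n ≠ 0 → (ι1 x * b1) ^ n ≠ 1 := by
    intro x
    by_cases hx : x = 1
    · simpa [hx] using hb1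
    · apply good
      intro y hy
      rw [mul_assoc]
      exact hP1 x hx _ (nP1 _ (hbQ y hy))
  have pp1 : ∀ g : G1, (∀ n : ℤ, n ≠ 0 → g ^ n ≠ 1) →
      ∀ n : ℤ, n ≠ 0 → ∀ y, y ∉ P → ι g ^ n * y ∈ P := by
    intro g hg n hn y hy
    rw [← map_zpow]
    exact hP _ (hg n hn) y hy
  have hb1' : b1 ≠ 1 := by simpa using hb1 1 one_ne_zero
  set b := ι b1 with hb
  have pp2 : ∀ n : ℤ, n ≠ 0 → ∀ y, y ∉ P → (b⁻¹ * (a * b)) ^ n * y ∈ P := by
    intro n hn y hy
    have e : (b⁻¹ * (a * b)) ^ n = b⁻¹ * a ^ n * b := by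
      have := conj_zpow (i := n) (a := b⁻¹) (b := a)
      simpa [mul_assoc] using this
    have := hP b1⁻¹ (inv_ne_one.mpr hb1') _ (nP _ (hQ n hn _ (nQ _ (hP b1 hb1' y hy))))
    rw [e]
    simpa [mul_assoc, hb] using this
  let gU : ℕ → A
    | 0 => b
    | 1 => b
    | 2 => b⁻¹ * (a * b)
    | 3 => ι ((ι1 W)⁻¹ * (b1⁻¹ * (ι1 W * b1)))
    | i + 4 => ι (ι1 (a0 i) * b1)
  let gV : ℕ → A
    | 0 => b
    | 1 => b⁻¹ * (a * b)
    | 2 => b⁻¹ * (a * b)
    | _ + 3 => b
  have hne : P.Nonempty := ⟨_, hP b1 hb1' 1 p⟩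
  have hU := free_conj a P Q d hne hQ gU (by
    rintro (_ | _ | _ | _ | i)
    · exact pp1 _ hb1
    · exact pp1 _ hb1
    · exact pp2
    · exact pp1 _ hcomm
    · exact pp1 _ (hxb _))
  have hV := free_conj a P Q d hne hQ gV (by
    rintro (_ | _ | _ | i)
    · exact pp1 _ hb1
    · exact pp2
    · exact pp2
    · exact pp1 _ hb1)
  let φ : ∀ _ : Bool, CoprodI (fun _ : ℕ => Multiplicative ℤ) →* A := fun i =>
    cond i (CoprodI.lift fun k => zpowersHom A ((a ^ k)⁻¹ * gV k * a ^ k))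
      (CoprodI.lift fun k => zpowersHom A ((a ^ k)⁻¹ * gU k * a ^ k))
  have hφ : ∀ i, Injective (φ i) := by
    rintro (_ | _)
    · exact hU
    · exact hV
  let L : A →* PushoutI φ := PushoutI.of (φ := φ) false
  let R : A →* PushoutI φ := PushoutI.of (φ := φ) true
  have hLR : ∀ k, L ((a ^ k)⁻¹ * gU k * a ^ k) = R ((a ^ k)⁻¹ * gV k * a ^ k) := by
    intro k
    have e1 := PushoutI.of_apply_eq_base φ false (CoprodI.of (i := k) (Multiplicative.ofAdd 1))
    have e2 := PushoutI.of_apply_eq_base φ true (CoprodI.of (i := k) (Multiplicative.ofAdd 1))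
    have := e1.trans e2.symm
    simpa [φ] using this
  have hRb : R b = L b := by simpa [gU, gV] using (hLR 0).symm
  let a' : ℕ → PushoutI φ := fun x => if x < N then L (ι (ι1 (a0 x))) else if x = N then L a
    else if x = N + 1 then L b else R a
  have e0 : a' N = L a := by simp [a']
  have e1 : a' (N + 1) = L b := by simp [a']
  have e2 : a' (N + 2) = R a := by simp [a']
  have e3 : ∀ x < N, a' x = L (ι (ι1 (a0 x))) := fun x hx => by simp [a', hx]
  have e4 : ev a' w = L (ι (ι1 W)) := by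
    rw [hW, map_ev _ ι1, map_ev _ ι]
    exact (ev_congr hw e3).trans (map_ev (H := PushoutI φ) _ L w).symm
  refine ⟨PushoutI φ, inferInstance, L.comp (ι.comp ι1), a', e3, ?_, ?_⟩
  · intro s hs
    simp only [miller, List.mem_cons, List.mem_map, List.mem_range] at hs
    rcases hs with rfl | rfl | rfl | ⟨i, hi', rfl⟩
    · have := hLR 3
      simp only [gU, gV, map_mul, map_inv, map_pow, hRb, ← hb] at this
      simp only [sig3, ev_append, ev_winv, ev_cj, ev_cons_true, ev_cons_false, ev_nil, mul_one,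
        e0, e1, e2, e4, mul_inv_eq_one, this]
    · have := hLR 1
      simp only [gU, gV, map_mul, map_inv, map_pow, hRb] at this
      simp only [sig1, ev_append, ev_winv, ev_cj, ev_cons_true, ev_cons_false, ev_nil, mul_one,
        e0, e1, e2, mul_inv_eq_one, this]
    · have := hLR 2
      simp only [gU, gV, map_mul, map_inv, map_pow, hRb] at this
      simp only [sig2, ev_append, ev_winv, ev_cj, ev_cons_true, ev_cons_false, ev_nil, mul_one,
        e0, e1, e2, mul_inv_eq_one, this]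
    · have := hLR (i + 4)
      simp only [gU, gV, map_mul, map_inv, map_pow, hRb, ← hb] at this
      simp only [sig4, ev_append, ev_winv, ev_cj, ev_cons_true, ev_nil, mul_one,
        e0, e1, e2, e3 i hi', mul_inv_eq_one, this]
  · rw [e1]
    intro e
    have h1 : b = 1 := PushoutI.of_injective hφ false (e.trans (map_one L).symm)
    have := hP b1 hb1' 1 p
    rw [← hb, h1, one_mul] at this
    exact p this

/-- The group with generators `0, …, N-1` and relators `S ++ R` is trivial. -/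
def Triv (N : ℕ) (S R : List Word) : Prop :=
  ∀ (G : Type) [Group G] (a : ℕ → G), (∀ s ∈ S, ev a s = 1) → (∀ r ∈ R, ev a r = 1) →
    ∀ x < N, a x = 1

/-- The relators `S` kill the abelianisation. -/
def Perf (N : ℕ) (S : List Word) : Prop :=
  ∀ (A : Type) [CommGroup A] (a : ℕ → A), (∀ s ∈ S, ev a s = 1) → ∀ x < N, a x = 1

/-- The exponent matrix of `S` has a right inverse. -/
def Surj (S : List Word) : Prop :=
  ∀ (A : Type) [CommGroup A] (β : ℕ → A), ∃ a : ℕ → A, ∀ s < S.length, ev a (S.getD s []) = β s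

/-- **Adian-Rabin**, with a balanced perfect subpresentation `S n`. -/
theorem adian_rabin : ∃ (N : ℕ) (R : List Word) (S : ℕ → List Word), Primrec S ∧
    (∀ r ∈ R, ∀ p ∈ r, p.1 < N) ∧ (∀ n, ∀ s ∈ S n, ∀ p ∈ s, p.1 < N) ∧
    (∀ n, Perf N (S n)) ∧ (∀ n, Surj (S n)) ∧ ∀ n, Halts n ↔ Triv N (S n) R := by
  obtain ⟨N, R, w, hw, hR, hwN, h⟩ := novikov_boone
  refine ⟨N + 3, R, fun n => miller N (w n), (primrec_miller N).comp hw,
    fun r hr p hp => by have := hR r hr p hp; omega, fun n => miller_letters N _ (hwN n),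
    fun n A _ a ha => miller_triv a N _ ha (mul_comm _ _), fun n => miller_surj N _,
    fun n => ⟨fun hn G _ a ha hr => ?_, fun ht => ?_⟩⟩
  · apply miller_triv a N _ ha
    rw [(h n).1 hn G a hr]; simp
  · by_contra hn
    obtain ⟨G, _, a0, h1, h2⟩ := (h n).2 hn
    obtain ⟨H, _, f, a, h3, h4, h5⟩ := miller_nontriv a0 N _ (hwN n) h2
    refine h5 (ht H a h4 (fun r hr => ?_) _ (by omega))
    rw [ev_congr (hR r hr) h3, ← map_ev, h1 r hr, map_one]

end Pool.Agent.Shared.GroupUndec
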